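import Mathlib

/-!
# An operator implication

For `c` strictly positive and `b ≥ 0` in a C*-algebra and `0 ≤ s ≤ 1`:
`(b c b) ^ s ≤ μ c` implies `b ^ (2 s) ≤ μ c ^ (1 - s)`.
-/

set_option autoImplicit false

open scoped NNReal Topology
open Filter

namespace Pool.Agent.Q78.DI

variable {A : Type*} [CStarAlgebra A] [PartialOrder A] [StarOrderedRing A]

/-- addition of nonnegative exponents -/
theorem rpow_add_nonneg {a : A} (ha : 0 ≤ a) {x y : ℝ} (hx : 0 ≤ x) (hy : 0 ≤ y) :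
    a ^ (x + y) = a ^ x * a ^ y := by
  rcases hx.eq_or_lt with rfl | hx
  · rw [zero_add, CFC.rpow_zero a, one_mul]
  rcases hy.eq_or_lt with rfl | hy
  · rw [add_zero, CFC.rpow_zero a, mul_one]
  lift x to ℝ≥0 using hx.le
  lift y to ℝ≥0 using hy.le
  have hx' : 0 < x := by exact_mod_cast hx
  have hy' : 0 < y := by exact_mod_cast hy
  have := CFC.nnrpow_add (a := a) hx' hy'
  rw [CFC.nnrpow_eq_rpow hx', CFC.nnrpow_eq_rpow hy', CFC.nnrpow_eq_rpow (by positivity)] at this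
  rw [← this]
  norm_cast

/-- powers of a multiple -/
theorem smul_rpow {a : A} (ha : 0 ≤ a) (t : ℝ≥0) {s : ℝ} (hs : 0 ≤ s) :
    (t • a) ^ s = (t ^ s : ℝ≥0) • a ^ s := by
  rw [CFC.rpow_def, CFC.rpow_def, ← cfc_comp_smul t (fun x : ℝ≥0 => x ^ s) a]
  · rw [← cfc_smul (t ^ s : ℝ≥0) (fun x : ℝ≥0 => x ^ s) a]
    · congr 1
      ext x
      simp [NNReal.mul_rpow]

theorem conj_le {a c : A} (h : a ≤ c) {b : A} (hb : 0 ≤ b) : b * a * b ≤ b * c * b := by
  have h1 := star_left_conjugate_le_conjugate h b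
  rwa [(IsSelfAdjoint.of_nonneg hb).star_eq] at h1

theorem conj_nonneg {c : A} (hc : 0 ≤ c) {b : A} (hb : 0 ≤ b) : 0 ≤ b * c * b := by
  have h1 := conj_le hc hb
  simpa using h1

/-- the fixed point of `c ↦ (b c b) ^ s` -/
theorem fix {b : A} (hb : 0 ≤ b) {s : ℝ} (hs : 0 ≤ s) (hs1 : s < 1) :
    (b * b ^ (2 * s / (1 - s)) * b) ^ s = b ^ (2 * s / (1 - s)) := by
  have h1 : (0 : ℝ) < 1 - s := by linarith
  have hq : 0 ≤ 2 * s / (1 - s) := by positivity
  have e1 : b * b ^ (2 * s / (1 - s)) * b = b ^ (1 + 2 * s / (1 - s) + 1) := by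
    rw [rpow_add_nonneg hb (by positivity) zero_le_one, rpow_add_nonneg hb zero_le_one hq,
      CFC.rpow_one b]
  rw [e1, CFC.rpow_rpow_of_exponent_nonneg b _ _ (by positivity) hs]
  congr 1
  field_simp
  ring

/-- the iteration -/
theorem iter {b c e : A} (hb : 0 ≤ b) (he : 0 ≤ e) {s : ℝ} (hs : 0 ≤ s) (hs1 : s < 1)
    (hfix : (b * e * b) ^ s = e) (h : (b * c * b) ^ s ≤ c) {t : ℝ≥0} (ht : 0 < t)
    (hte : t • e ≤ c) : e ≤ c := by
  have step : ∀ n : ℕ, (t ^ (s ^ n) : ℝ≥0) • e ≤ c := by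
    intro n
    induction n with
    | zero => simpa using hte
    | succ n ih =>
      have h1 := conj_le ih hb
      have h2 := CFC.rpow_le_rpow (p := s) ⟨hs, hs1.le⟩ h1
      have e1 : b * ((t ^ (s ^ n) : ℝ≥0) • e) * b = (t ^ (s ^ n) : ℝ≥0) • (b * e * b) := by
        rw [mul_smul_comm, smul_mul_assoc]
      rw [e1, smul_rpow (conj_nonneg he hb) _ hs, hfix] at h2
      have e2 : ((t ^ (s ^ n) : ℝ≥0) ^ s : ℝ≥0) = t ^ (s ^ (n + 1)) := by
        rw [← NNReal.rpow_mul, pow_succ]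
      rw [e2] at h2
      exact h2.trans h
  have hlim : Tendsto (fun n : ℕ => (t ^ (s ^ n) : ℝ≥0)) atTop (𝓝 1) := by
    have h1 : Tendsto (fun n : ℕ => s ^ n) atTop (𝓝 0) := tendsto_pow_atTop_nhds_zero_of_lt_one hs hs1
    have h2 : Tendsto (fun x : ℝ => (t ^ x : ℝ≥0)) (𝓝 0) (𝓝 (t ^ (0 : ℝ))) := by
      have : Continuous fun x : ℝ => (t ^ x : ℝ≥0) := by
        rw [continuous_iff_continuousAt]
        intro x
        exact (NNReal.continuousAt_rpow (Or.inl ht.ne')).comp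
          (continuousAt_const.prodMk continuousAt_id)
      exact this.tendsto 0
    rw [NNReal.rpow_zero] at h2
    exact h2.comp h1
  have hlim2 : Tendsto (fun n : ℕ => (t ^ (s ^ n) : ℝ≥0) • e) atTop (𝓝 ((1 : ℝ≥0) • e)) :=
    hlim.smul_const e
  rw [one_smul] at hlim2
  exact le_of_tendsto' hlim2 step

/-- the main implication for `s < 1` -/
theorem main_lt {b c : A} (hb : 0 ≤ b) (hc : IsStrictlyPositive c) {s : ℝ} (hs : 0 ≤ s) (hs1 : s < 1)
    (h : (b * c * b) ^ s ≤ c) : b ^ (2 * s) ≤ c ^ (1 - s) := by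
  nontriviality A
  have h1 : (0 : ℝ) < 1 - s := by linarith
  have hc0 : 0 ≤ c := hc.nonneg
  set q : ℝ := 2 * s / (1 - s) with hq
  have hq0 : 0 ≤ q := by rw [hq]; positivity
  have he : 0 ≤ b ^ q := CFC.rpow_nonneg
  -- a small multiple of `e` is below `c`
  obtain ⟨r, hr, hrc⟩ : ∃ r : ℝ, 0 < r ∧ algebraMap ℝ A r ≤ c := by
    have := (CFC.exists_pos_algebraMap_le_iff (A := A) (a := c) hc0.isSelfAdjoint).2
      (fun x hx => hc.spectrum_pos hx)
    obtain ⟨r, hr, hrc⟩ := this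
    exact ⟨r, hr, hrc⟩
  have hle : b ^ q ≤ algebraMap ℝ A ‖b ^ q‖ := he.isSelfAdjoint.le_algebraMap_norm_self
  have hbound : ∃ t : ℝ≥0, 0 < t ∧ t • b ^ q ≤ c := by
    have hpos : 0 < r / (‖b ^ q‖ + 1) := by positivity
    refine ⟨⟨r / (‖b ^ q‖ + 1), hpos.le⟩, hpos, ?_⟩
    have h2 : (r / (‖b ^ q‖ + 1)) • b ^ q ≤ (r / (‖b ^ q‖ + 1)) • algebraMap ℝ A ‖b ^ q‖ :=
      smul_le_smul_of_nonneg_left hle hpos.le
    have h3 : (r / (‖b ^ q‖ + 1)) • algebraMap ℝ A ‖b ^ q‖ ≤ algebraMap ℝ A r := by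
      rw [Algebra.smul_def, ← map_mul]
      apply (algebraMap_mono A)
      rw [div_mul_eq_mul_div, div_le_iff₀ (by positivity)]
      nlinarith [norm_nonneg (b ^ q)]
    exact (h2.trans h3).trans hrc
  obtain ⟨t, ht, htc⟩ := hbound
  have hkey : b ^ q ≤ c := iter hb he hs hs1 (fix hb hs hs1) h ht htc
  have h4 := CFC.rpow_le_rpow (p := 1 - s) ⟨h1.le, by linarith⟩ hkey
  have e3 : (b ^ q) ^ (1 - s) = b ^ (2 * s) := by
    rw [CFC.rpow_rpow_of_exponent_nonneg b _ _ hq0 h1.le]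
    congr 1
    rw [hq]
    field_simp
  rwa [e3] at h4

/-- the case `s = 1` -/
theorem main_one {b c : A} (hb : 0 ≤ b) (hc : IsStrictlyPositive c) (h : b * c * b ≤ c) :
    b * b ≤ 1 := by
  nontriviality A
  have hc0 : 0 ≤ c := hc.nonneg
  have hsa : IsSelfAdjoint b := .of_nonneg hb
  obtain ⟨r, hr, hrc⟩ : ∃ r : ℝ, 0 < r ∧ algebraMap ℝ A r ≤ c := by
    have := (CFC.exists_pos_algebraMap_le_iff (A := A) (a := c) hc0.isSelfAdjoint).2
      (fun x hx => hc.spectrum_pos hx)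
    obtain ⟨r, hr, hrc⟩ := this
    exact ⟨r, hr, hrc⟩
  have hcle : c ≤ algebraMap ℝ A ‖c‖ := hc0.isSelfAdjoint.le_algebraMap_norm_self
  have step : ∀ n : ℕ, b ^ n * c * b ^ n ≤ c := by
    intro n
    induction n with
    | zero => simp
    | succ n ih =>
      have h1 := conj_le ih hb
      have e1 : b ^ (n + 1) * c * b ^ (n + 1) = b * (b ^ n * c * b ^ n) * b := by
        rw [pow_succ']
        simp only [mul_assoc]
        rw [← pow_succ', pow_succ]
      rw [e1]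
      exact h1.trans h
  have hpow : ∀ n : ℕ, 0 ≤ b ^ n := fun n => by
    rw [← CFC.rpow_natCast b n]
    exact CFC.rpow_nonneg
  have hnorm : ∀ n : ℕ, ‖b ^ n‖ * ‖b ^ n‖ ≤ ‖c‖ / r := by
    intro n
    have h1 := conj_le hrc (hpow n)
    have e1 : b ^ n * algebraMap ℝ A r * b ^ n = r • (b ^ n * b ^ n) := by
      rw [← Algebra.commutes, Algebra.smul_def, mul_assoc]
    rw [e1] at h1
    have h2 : r • (b ^ n * b ^ n) ≤ algebraMap ℝ A ‖c‖ := (h1.trans (step n)).trans hcle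
    have h3 : 0 ≤ r • (b ^ n * b ^ n) := by
      apply smul_nonneg hr.le
      have := conj_nonneg (zero_le_one (α := A)) (hpow n)
      simpa using this
    have h4 : ‖r • (b ^ n * b ^ n)‖ ≤ ‖c‖ := by
      have := CStarAlgebra.norm_le_norm_of_nonneg_of_le h3 h2
      rwa [norm_algebraMap', Real.norm_of_nonneg (norm_nonneg c)] at this
    have h5 : ‖b ^ n * b ^ n‖ = ‖b ^ n‖ * ‖b ^ n‖ := by
      have h6 : IsSelfAdjoint (b ^ n) := .of_nonneg (hpow n)
      have h7 := CStarRing.norm_star_mul_self (x := b ^ n)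
      rwa [h6.star_eq] at h7
    rw [norm_smul, Real.norm_of_nonneg hr.le, h5] at h4
    rw [le_div_iff₀ hr]
    linarith
  have hb1 : ‖b‖ ≤ 1 := by
    by_contra hcon
    push Not at hcon
    have h1 : ∀ m : ℕ, ‖b ^ (2 ^ m)‖ = ‖b‖ ^ (2 ^ m) := by
      intro m
      have := hsa.nnnorm_pow_two_pow m
      have h2 := congrArg (fun x : ℝ≥0 => (x : ℝ)) this
      simpa using h2
    have h2 : Tendsto (fun m : ℕ => ‖b‖ ^ (2 ^ m)) atTop atTop :=
      (tendsto_pow_atTop_atTop_of_one_lt hcon).comp (_root_.tendsto_pow_atTop_atTop_of_one_lt (one_lt_two (α := ℕ)))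
    obtain ⟨m, hm⟩ := (h2.eventually_gt_atTop (‖c‖ / r + 1)).exists
    have h3 := hnorm (2 ^ m)
    rw [h1] at h3
    have h4 : 0 ≤ ‖c‖ / r := by positivity
    nlinarith
  have h8 := CStarAlgebra.star_mul_le_algebraMap_norm_sq (a := b)
  rw [hsa.star_eq] at h8
  refine h8.trans ?_
  rw [← map_one (algebraMap ℝ A)]
  apply algebraMap_mono A
  nlinarith [norm_nonneg b]

/-- The operator implication with a parameter. -/
theorem main {b c : A} (hb : 0 ≤ b) (hc : IsStrictlyPositive c) {s : ℝ} (hs : 0 ≤ s) (hs1 : s ≤ 1)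
    {m : ℝ≥0} (hm : 0 < m) (h : (b * c * b) ^ s ≤ m • c) : b ^ (2 * s) ≤ m • c ^ (1 - s) := by
  have hc0 : 0 ≤ c := hc.nonneg
  rcases hs.eq_or_lt with rfl | hspos
  · rw [CFC.rpow_zero _ (conj_nonneg hc0 hb)] at h
    simpa [CFC.rpow_zero b, CFC.rpow_one c] using h
  -- rescale `b`
  set τ : ℝ≥0 := m ^ (-(1 / (2 * s))) with hτ
  have hτpos : 0 < τ := NNReal.rpow_pos hm
  have hτ2 : ((τ * τ) ^ s : ℝ≥0) = m⁻¹ := by
    rw [← pow_two, ← NNReal.rpow_natCast, ← NNReal.rpow_mul, hτ, ← NNReal.rpow_mul,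
      ← NNReal.rpow_neg_one]
    congr 1
    field_simp
    norm_num
  have hτ3 : (τ ^ (2 * s) : ℝ≥0) = m⁻¹ := by
    rw [hτ, ← NNReal.rpow_mul, ← NNReal.rpow_neg_one]
    congr 1
    field_simp
  have hb' : 0 ≤ τ • b := smul_nonneg zero_le hb
  have e1 : (τ • b) * c * (τ • b) = (τ * τ) • (b * c * b) := by
    rw [smul_mul_assoc, smul_mul_assoc, mul_smul_comm, smul_smul]
  have h1 : ((τ • b) * c * (τ • b)) ^ s ≤ c := by
    rw [e1, smul_rpow (conj_nonneg hc0 hb) _ hs, hτ2]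
    have := smul_le_smul_of_nonneg_left h (zero_le (a := m⁻¹))
    rwa [smul_smul, inv_mul_cancel₀ hm.ne', one_smul] at this
  have h2 : (τ • b) ^ (2 * s) ≤ c ^ (1 - s) := by
    rcases hs1.eq_or_lt with rfl | hs1
    · rw [sub_self, CFC.rpow_zero c, mul_one, show (2 : ℝ) = ((2 : ℕ) : ℝ) by norm_num,
        CFC.rpow_natCast _ _ hb', pow_two]
      rw [CFC.rpow_one _ (conj_nonneg hc0 hb')] at h1
      exact main_one hb' hc h1
    · exact main_lt hb' hc hs hs1 h1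
  rw [smul_rpow hb _ (by positivity), hτ3] at h2
  have := smul_le_smul_of_nonneg_left h2 (zero_le (a := m))
  rwa [smul_smul, mul_inv_cancel₀ hm.ne', one_smul] at this

end Pool.Agent.Q78.DI
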