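import Mathlib
import Pool.Agent.TH461.SST.CB
import Pool.Agent.Q78.DI.Op

/-!
# Compound matrices and real powers of positive semidefinite matrices
-/

set_option autoImplicit false

open scoped MatrixOrder Matrix.Norms.L2Operator ComplexOrder NNReal
open Matrix Finset

namespace Pool.Agent.Q78.DI

/-- the `k`-element subsets of `Fin n` -/
abbrev Ix (n k : ℕ) := {Q : Finset (Fin n) // Q.card = k}

/-- the `k`-th compound matrix -/
noncomputable def cpd {n : ℕ} (k : ℕ) (T : Matrix (Fin n) (Fin n) ℂ) :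
    Matrix (Ix n k) (Ix n k) ℂ :=
  fun I J => (T.submatrix (I.1.orderEmbOfFin I.2) (J.1.orderEmbOfFin J.2)).det

variable {n k : ℕ}

theorem cpd_mul (S T : Matrix (Fin n) (Fin n) ℂ) : cpd k (S * T) = cpd k S * cpd k T := by
  ext I J
  have h := Pool.Agent.TH461.SST.CB.cbR k n (S.submatrix (I.1.orderEmbOfFin I.2) id)
    (T.submatrix id (J.1.orderEmbOfFin J.2))
  have e1 : S.submatrix (I.1.orderEmbOfFin I.2) id * T.submatrix id (J.1.orderEmbOfFin J.2) =
      (S * T).submatrix (I.1.orderEmbOfFin I.2) (J.1.orderEmbOfFin J.2) := by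
    ext a b
    simp [Matrix.mul_apply]
  rw [e1] at h
  rw [Matrix.mul_apply]
  simp only [cpd]
  rw [h]
  rfl

/-- products over index sets -/
noncomputable def lamP (lam : Fin n → ℝ) (J : Ix n k) : ℝ := ∏ j ∈ J.1, lam j

theorem lamP_eq (lam : Fin n → ℝ) (J : Ix n k) :
    ∏ i : Fin k, lam (J.1.orderEmbOfFin J.2 i) = lamP lam J := by
  unfold lamP
  conv_rhs => rw [← Finset.map_orderEmbOfFin_univ J.1 J.2]
  rw [Finset.prod_map]
  rfl

theorem cpd_diag (lam : Fin n → ℝ) :
    cpd k (Matrix.diagonal (fun i => (lam i : ℂ))) =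
      Matrix.diagonal (fun J => ((lamP lam J : ℝ) : ℂ)) := by
  ext I J
  by_cases h : I = J
  · subst h
    rw [Matrix.diagonal_apply_eq]
    simp only [cpd]
    rw [Matrix.submatrix_diagonal _ _ (I.1.orderEmbOfFin I.2).injective, Matrix.det_diagonal,
      ← lamP_eq lam I]
    push_cast
    rfl
  · rw [Matrix.diagonal_apply_ne _ h]
    simp only [cpd]
    have : ∃ i ∈ I.1, i ∉ J.1 := by
      by_contra hcon
      push Not at hcon
      apply h
      apply Subtype.ext
      exact Finset.eq_of_subset_of_card_le hcon (by rw [I.2, J.2])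
    obtain ⟨i, hi, hiJ⟩ := this
    have h2 : i ∈ Set.range (I.1.orderEmbOfFin I.2) := by
      rw [Finset.range_orderEmbOfFin]
      exact hi
    obtain ⟨a, ha⟩ := h2
    apply Matrix.det_eq_zero_of_row_eq_zero a
    intro j
    rw [Matrix.submatrix_apply, ha]
    apply Matrix.diagonal_apply_ne
    intro h3
    apply hiJ
    rw [h3]
    exact Finset.orderEmbOfFin_mem J.1 J.2 j

theorem cpd_one : cpd k (1 : Matrix (Fin n) (Fin n) ℂ) = 1 := by
  have h := cpd_diag (k := k) (fun _ : Fin n => (1 : ℝ))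
  simpa [lamP] using h

theorem cpd_star (T : Matrix (Fin n) (Fin n) ℂ) : cpd k Tᴴ = (cpd k T)ᴴ := by
  ext I J
  simp only [cpd, Matrix.conjTranspose_apply]
  rw [← Matrix.det_conjTranspose]
  rfl

theorem cpd_inv_mul {T : Matrix (Fin n) (Fin n) ℂ} (h : IsUnit T.det) :
    cpd k T⁻¹ * cpd k T = 1 := by
  rw [← cpd_mul, Matrix.nonsing_inv_mul T h, cpd_one]

theorem cpd_mul_inv {T : Matrix (Fin n) (Fin n) ℂ} (h : IsUnit T.det) :
    cpd k T * cpd k T⁻¹ = 1 := by
  rw [← cpd_mul, Matrix.mul_nonsing_inv T h, cpd_one]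

/-! ### Powers of a diagonalised matrix -/

section
variable {ι : Type} [Fintype ι] [DecidableEq ι]

/-- real power of a diagonalised matrix -/
theorem rpow_diag (V : Matrix ι ι ℂ) (hV : V ∈ Matrix.unitaryGroup ι ℂ) (d : ι → ℝ)
    (hd : ∀ i, 0 ≤ d i) (q : ℝ) (hq : 0 ≤ q) :
    (V * Matrix.diagonal (fun i => (d i : ℂ)) * star V) ^ q =
      V * Matrix.diagonal (fun i => ((d i ^ q : ℝ) : ℂ)) * star V := by
  classical
  have hVV : star V * V = 1 := Matrix.mem_unitaryGroup_iff'.1 hV
  have hVV' : V * star V = 1 := Matrix.mem_unitaryGroup_iff.1 hV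
  set a : Matrix ι ι ℂ := V * Matrix.diagonal (fun i => (d i : ℂ)) * star V with ha
  have ha0 : 0 ≤ a := by
    rw [Matrix.nonneg_iff_posSemidef, ha]
    have h1 : (Matrix.diagonal (fun i => (d i : ℂ))).PosSemidef :=
      Matrix.PosSemidef.diagonal (fun i => by simpa using hd i)
    exact h1.mul_mul_conjTranspose_same V
  -- interpolation
  obtain ⟨P, hP⟩ : ∃ P : Polynomial ℝ, ∀ i, P.eval (d i) = d i ^ q := by
    refine ⟨Lagrange.interpolate (Finset.univ.image d) id (fun x => x ^ q), fun i => ?_⟩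
    have := Lagrange.eval_interpolate_at_node (s := Finset.univ.image d) (v := id)
      (fun x : ℝ => x ^ q) (Set.injOn_id _) (Finset.mem_image_of_mem d (Finset.mem_univ i))
    simpa using this
  have haev : ∀ P : Polynomial ℝ, Polynomial.aeval a P =
      V * Matrix.diagonal (fun i => ((P.eval (d i) : ℝ) : ℂ)) * star V := by
    intro P
    induction P using Polynomial.induction_on' with
    | add p q hp hq =>
      rw [map_add, hp, hq, ← Matrix.add_mul, ← Matrix.mul_add, Matrix.diagonal_add]
      simp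
    | monomial m c =>
      rw [Polynomial.aeval_monomial]
      have hpow : a ^ m = V * Matrix.diagonal (fun i => ((d i ^ m : ℝ) : ℂ)) * star V := by
        induction m with
        | zero => simp [hVV']
        | succ m ih =>
          rw [pow_succ, ih, ha]
          calc V * Matrix.diagonal (fun i => ((d i ^ m : ℝ) : ℂ)) * star V *
                (V * Matrix.diagonal (fun i => (d i : ℂ)) * star V)
              = V * Matrix.diagonal (fun i => ((d i ^ m : ℝ) : ℂ)) * (star V * V) *
                Matrix.diagonal (fun i => (d i : ℂ)) * star V := by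
                  simp only [Matrix.mul_assoc]
            _ = _ := by
                  rw [hVV, Matrix.mul_one, Matrix.mul_assoc V, Matrix.diagonal_mul_diagonal]
                  congr 3
                  ext i
                  push_cast
                  ring_nf
      rw [hpow, Algebra.algebraMap_eq_smul_one, smul_mul_assoc, one_mul]
      ext i j
      simp only [Polynomial.eval_monomial, Matrix.smul_apply, Matrix.mul_apply,
        Matrix.diagonal_apply, Finset.smul_sum, Complex.ofReal_mul]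
      simp only [mul_ite, mul_zero, Finset.sum_ite_eq', Finset.mem_univ, if_true, Complex.real_smul]
      apply Finset.sum_congr rfl
      intro x _
      ring
  have hspec : ∀ x ∈ spectrum ℝ a, P.eval x = x ^ q := by
    intro x hx
    -- the minimal polynomial argument
    have h1 : Polynomial.aeval a (∏ i, (Polynomial.X - Polynomial.C (d i))) = 0 := by
      rw [haev]
      have : (fun i => ((Polynomial.eval (d i) (∏ i, (Polynomial.X - Polynomial.C (d i))) : ℝ) : ℂ)) =
          fun _ => 0 := by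
        ext i
        rw [Polynomial.eval_prod, Finset.prod_eq_zero (Finset.mem_univ i)]
        · simp
        · simp
      rw [this]
      simp
    have h2 := spectrum.subset_polynomial_aeval a (∏ i, (Polynomial.X - Polynomial.C (d i)))
      ⟨x, hx, rfl⟩
    rw [h1] at h2
    simp only at h2
    have h3 : Polynomial.eval x (∏ i, (Polynomial.X - Polynomial.C (d i))) = 0 := by
      by_contra hne
      apply (spectrum.mem_iff.1 h2)
      rw [sub_zero]
      exact (IsUnit.mk0 _ hne).map (algebraMap ℝ (Matrix ι ι ℂ))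
    rw [Polynomial.eval_prod, Finset.prod_eq_zero_iff] at h3
    obtain ⟨i, _, hi⟩ := h3
    have h4 : x = d i := by
      simpa [sub_eq_zero] using hi
    rw [h4, hP]
  rw [CFC.rpow_eq_cfc_real (a := a) (y := q), cfc_congr (g := P.eval) (fun x hx => (hspec x hx).symm),
    cfc_polynomial P a (IsSelfAdjoint.of_nonneg ha0), haev]
  simp only [hP]

/-- spectral theorem with sorted eigenvalues -/
theorem exists_diag {n : ℕ} {M : Matrix (Fin n) (Fin n) ℂ} (hM : M.PosSemidef) :
    ∃ (V : Matrix (Fin n) (Fin n) ℂ) (d : Fin n → ℝ), V ∈ Matrix.unitaryGroup (Fin n) ℂ ∧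
      (∀ i, 0 ≤ d i) ∧ Antitone d ∧ M = V * Matrix.diagonal (fun i => (d i : ℂ)) * star V := by
  set U : Matrix (Fin n) (Fin n) ℂ := (hM.1.eigenvectorUnitary : Matrix (Fin n) (Fin n) ℂ) with hU
  set e : Fin n → ℝ := hM.1.eigenvalues with he
  have hUU : U ∈ Matrix.unitaryGroup (Fin n) ℂ := hM.1.eigenvectorUnitary.2
  have hspec : M = U * Matrix.diagonal (fun i => (e i : ℂ)) * star U := by
    have := hM.1.spectral_theorem
    rw [Unitary.conjStarAlgAut_apply] at this
    exact this
  set σ : Equiv.Perm (Fin n) := Tuple.sort (fun i => - e i) with hσ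
  have hmono : Monotone ((fun i => - e i) ∘ σ) := Tuple.monotone_sort _
  refine ⟨U.submatrix id σ, fun i => e (σ i), ?_, fun i => hM.eigenvalues_nonneg _, ?_, ?_⟩
  · rw [Matrix.mem_unitaryGroup_iff]
    have h1 : star (U.submatrix id σ) = (star U).submatrix σ id := rfl
    rw [h1, Matrix.submatrix_mul_equiv, Matrix.mem_unitaryGroup_iff.1 hUU]
    rfl
  · intro i j hij
    have := hmono hij
    simp only [Function.comp] at this
    linarith
  · have h1 : star (U.submatrix id σ) = (star U).submatrix σ id := rfl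
    have h2 : Matrix.diagonal (fun i => ((e (σ i) : ℝ) : ℂ)) =
        (Matrix.diagonal (fun i => (e i : ℂ))).submatrix σ σ := by
      rw [Matrix.submatrix_diagonal_equiv]
      rfl
    rw [h1, h2, Matrix.submatrix_mul_equiv, Matrix.submatrix_mul_equiv, ← hspec]
    rfl

end

theorem cpd_unitary {V : Matrix (Fin n) (Fin n) ℂ} (hV : V ∈ Matrix.unitaryGroup (Fin n) ℂ) :
    cpd k V ∈ Matrix.unitaryGroup (Ix n k) ℂ := by
  rw [Matrix.mem_unitaryGroup_iff, Matrix.star_eq_conjTranspose, ← cpd_star, ← cpd_mul,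
    ← Matrix.star_eq_conjTranspose, Matrix.mem_unitaryGroup_iff.1 hV, cpd_one]

theorem cpd_conj (V : Matrix (Fin n) (Fin n) ℂ) (d : Fin n → ℝ) :
    cpd k (V * Matrix.diagonal (fun i => (d i : ℂ)) * star V) =
      cpd k V * Matrix.diagonal (fun J => ((lamP d J : ℝ) : ℂ)) * star (cpd k V) := by
  rw [cpd_mul, cpd_mul, cpd_diag, Matrix.star_eq_conjTranspose, cpd_star,
    Matrix.star_eq_conjTranspose]

theorem lamP_nonneg {d : Fin n → ℝ} (hd : ∀ i, 0 ≤ d i) (J : Ix n k) : 0 ≤ lamP d J :=
  Finset.prod_nonneg fun i _ => hd i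

theorem cpd_rpow {A : Matrix (Fin n) (Fin n) ℂ} (hA : A.PosSemidef) {q : ℝ} (hq : 0 ≤ q) :
    cpd k (A ^ q) = (cpd k A) ^ q := by
  obtain ⟨V, d, hV, hd, -, rfl⟩ := exists_diag hA
  rw [rpow_diag V hV d hd q hq, cpd_conj, cpd_conj,
    rpow_diag _ (cpd_unitary hV) _ (lamP_nonneg hd) q hq]
  congr 3
  ext J
  congr 1
  unfold lamP
  rw [Real.finsetProd_rpow _ _ (fun i _ => hd i)]

theorem cpd_posSemidef {A : Matrix (Fin n) (Fin n) ℂ} (hA : A.PosSemidef) :
    (cpd k A).PosSemidef := by
  obtain ⟨V, d, hV, hd, -, rfl⟩ := exists_diag hA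
  rw [cpd_conj]
  have h1 : (Matrix.diagonal (fun J : Ix n k => ((lamP d J : ℝ) : ℂ))).PosSemidef :=
    Matrix.PosSemidef.diagonal (fun J => by simpa using lamP_nonneg hd J)
  exact h1.mul_mul_conjTranspose_same _

theorem cpd_posDef {A : Matrix (Fin n) (Fin n) ℂ} (hA : A.PosDef) : (cpd k A).PosDef := by
  have h1 := cpd_posSemidef (k := k) hA.posSemidef
  rw [h1.posDef_iff_isUnit]
  have h2 : IsUnit A.det := (Matrix.isUnit_iff_isUnit_det A).1 hA.isUnit
  exact IsUnit.of_mul_eq_one _ (cpd_mul_inv h2)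

end Pool.Agent.Q78.DI
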