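import Mathlib
import Pool.Agent.Q78.DI.Cpd

/-!
# The determinant inequality
-/

set_option autoImplicit false

open scoped MatrixOrder Matrix.Norms.L2Operator ComplexOrder NNReal
open Matrix Finset

namespace Pool.Agent.Q78.DI

/-! ### A real inequality -/

/-- partial products -/
theorem prod_le (n : ℕ) : ∀ (ν m : ℕ → ℝ), (∀ i, 0 ≤ ν i) → (∀ i, 0 ≤ m i) → (∀ i j, i ≤ j → ν j ≤ ν i) →
    (∀ k, k ≤ n → ∏ i ∈ range k, ν i ≤ ∏ i ∈ range k, m i) →
    ∏ i ∈ range n, (1 + ν i) ≤ ∏ i ∈ range n, (1 + m i) := by
  induction n with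
  | zero => intro ν m _ _ _ _; simp
  | succ n ih =>
    intro ν m hν hm hanti hpart
    rcases (hν n).eq_or_lt with h0 | hpos
    · rw [prod_range_succ, prod_range_succ, ← h0, add_zero, mul_one]
      have h1 := ih ν m hν hm hanti (fun k hk => hpart k (by omega))
      have h2 : 0 ≤ ∏ i ∈ range n, (1 + m i) := prod_nonneg fun i _ => by have := hm i; linarith
      nlinarith [hm n]
    · -- all `ν i`, `m i` with `i ≤ n` are positive
      have hνpos : ∀ i, i ≤ n → 0 < ν i := fun i hi => lt_of_lt_of_le hpos (hanti i n hi)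
      have hmpos : ∀ i, i ≤ n → 0 < m i := by
        intro i hi
        have h1 := hpart (n + 1) le_rfl
        have h2 : 0 < ∏ i ∈ range (n + 1), ν i :=
          prod_pos fun i hi => hνpos i (by simpa [Nat.lt_succ_iff] using hi)
        rcases (hm i).eq_or_lt with h3 | h3
        · exfalso
          have : ∏ i ∈ range (n + 1), m i = 0 :=
            prod_eq_zero (mem_range.2 (Nat.lt_succ_of_le hi)) h3.symm
          linarith
        · exact h3
      -- logarithms
      set c : ℕ → ℝ := fun i => ν i / (1 + ν i) with hc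
      set a : ℕ → ℝ := fun i => Real.log (m i) - Real.log (ν i) with ha
      have hterm : ∀ i, i ≤ n → c i * a i ≤ Real.log (1 + m i) - Real.log (1 + ν i) := by
        intro i hi
        have hν1 := hνpos i hi
        have hm1 := hmpos i hi
        have hpos1 : 0 < 1 + ν i := by linarith
        -- weighted AM-GM via concavity of the logarithm
        have hconc := strictConcaveOn_log_Ioi.concaveOn.2
          (Set.mem_Ioi.2 (one_pos : (0 : ℝ) < 1)) (Set.mem_Ioi.2 (div_pos hm1 hν1))
          (by positivity : (0 : ℝ) ≤ 1 / (1 + ν i)) (by positivity : (0 : ℝ) ≤ ν i / (1 + ν i))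
          (by field_simp)
        simp only [smul_eq_mul, Real.log_one, mul_zero, zero_add, mul_one] at hconc
        have e1 : 1 / (1 + ν i) + ν i / (1 + ν i) * (m i / ν i) = (1 + m i) / (1 + ν i) := by
          field_simp
        rw [e1, Real.log_div hm1.ne' hν1.ne', Real.log_div (by linarith) hpos1.ne'] at hconc
        exact hconc
      have hsum : ∀ k, k ≤ n + 1 → 0 ≤ ∑ i ∈ range k, a i := by
        intro k hk
        have h1 := hpart k hk
        have e1 : ∑ i ∈ range k, a i = Real.log (∏ i ∈ range k, m i) -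
            Real.log (∏ i ∈ range k, ν i) := by
          rw [Real.log_prod, Real.log_prod, ← sum_sub_distrib]
          · intro i hi
            exact (hνpos i (by have := mem_range.1 hi; omega)).ne'
          · intro i hi
            exact (hmpos i (by have := mem_range.1 hi; omega)).ne'
        rw [e1, sub_nonneg]
        apply Real.log_le_log _ h1
        exact prod_pos fun i hi => hνpos i (by have := mem_range.1 hi; omega)
      have hcanti : ∀ i, i + 1 ≤ n → c (i + 1) ≤ c i := by
        intro i hi
        have h1 := hνpos i (by omega)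
        have h2 := hνpos (i + 1) hi
        have h3 := hanti i (i + 1) (by omega)
        simp only [hc]
        rw [div_le_div_iff₀ (by linarith) (by linarith)]
        nlinarith
      have hc0 : ∀ i, i ≤ n → 0 ≤ c i := fun i hi => by
        have := hνpos i hi
        simp only [hc]
        positivity
      -- Abel summation
      have habel : ∀ k, k ≤ n → c k * ∑ i ∈ range (k + 1), a i ≤ ∑ i ∈ range (k + 1), c i * a i := by
        intro k
        induction k with
        | zero => intro _; simp
        | succ k ihk =>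
          intro hk
          have h1 := ihk (by omega)
          have h2 := hsum (k + 1) (by omega)
          have h3 := hcanti k hk
          rw [sum_range_succ _ (k + 1), sum_range_succ _ (k + 1)]
          nlinarith
      have h5 : 0 ≤ ∑ i ∈ range (n + 1), c i * a i :=
        le_trans (mul_nonneg (hc0 n le_rfl) (hsum (n + 1) le_rfl)) (habel n le_rfl)
      have h6 : 0 ≤ ∑ i ∈ range (n + 1), (Real.log (1 + m i) - Real.log (1 + ν i)) := by
        refine h5.trans (sum_le_sum fun i hi => hterm i ?_)
        have := mem_range.1 hi; omega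
      rw [sum_sub_distrib, ← Real.log_prod, ← Real.log_prod, sub_nonneg] at h6
      · refine (Real.log_le_log_iff ?_ ?_).1 h6
        · exact prod_pos fun i _ => by have := hν i; linarith
        · exact prod_pos fun i _ => by have := hm i; linarith
      · intro i _; have := hν i; linarith
      · intro i _; have := hm i; linarith

/-! ### The largest product -/

variable {n k : ℕ}

/-- the first `k` indices -/
def J0 (n k : ℕ) (hk : k ≤ n) : Ix n k :=
  ⟨Finset.univ.filter (fun i : Fin n => (i : ℕ) < k), by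
    rw [Fin.card_filter_val_lt]
    exact min_eq_right hk⟩

theorem strictMono_le {f : Fin k → Fin n} (hf : StrictMono f) (i : Fin k) : (i : ℕ) ≤ f i := by
  obtain ⟨i, hi⟩ := i
  induction i with
  | zero => simp
  | succ i ih =>
    have h1 := ih (by omega)
    have h2 : f ⟨i, by omega⟩ < f ⟨i + 1, hi⟩ := hf (by simp [Fin.lt_def])
    have h3 : ((f ⟨i, by omega⟩ : Fin n) : ℕ) < (f ⟨i + 1, hi⟩ : Fin n) := h2
    simp only at h1 ⊢
    omega

/-- extension by zero -/
def ext (d : Fin n → ℝ) (i : ℕ) : ℝ := if h : i < n then d ⟨i, h⟩ else 0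

theorem lamP_J0 (d : Fin n → ℝ) (hk : k ≤ n) : lamP d (J0 n k hk) = ∏ i ∈ range k, ext d i := by
  unfold lamP J0
  symm
  refine Finset.prod_bij' (fun i hi => (⟨i, by have := mem_range.1 hi; omega⟩ : Fin n))
    (fun i _ => (i : ℕ)) ?_ ?_ ?_ ?_ ?_
  · intro i hi
    simpa using mem_range.1 hi
  · intro i hi
    simpa using hi
  · intro i hi
    rfl
  · intro i hi
    rfl
  · intro i hi
    have : i < n := by have := mem_range.1 hi; omega
    simp [ext, this]

theorem lamP_le {d : Fin n → ℝ} (hd : ∀ i, 0 ≤ d i) (ha : Antitone d) (hk : k ≤ n) (J : Ix n k) :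
    lamP d J ≤ lamP d (J0 n k hk) := by
  rw [lamP_J0, ← lamP_eq d J, Finset.prod_range]
  apply Finset.prod_le_prod (fun i _ => hd _)
  intro i _
  have h1 := strictMono_le (J.1.orderEmbOfFin J.2).strictMono i
  have h2 : (i : ℕ) < n := lt_of_lt_of_le i.2 hk
  simp only [ext, h2, dite_true]
  apply ha
  exact h1

/-! ### Comparison of determinants -/

theorem det_one_add (V : Matrix (Fin n) (Fin n) ℂ) (hV : V ∈ Matrix.unitaryGroup (Fin n) ℂ)
    (d : Fin n → ℝ) :
    (1 + V * Matrix.diagonal (fun i => (d i : ℂ)) * star V).det =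
      ((∏ i ∈ range n, (1 + ext d i) : ℝ) : ℂ) := by
  have hVV' : V * star V = 1 := Matrix.mem_unitaryGroup_iff.1 hV
  have e1 : 1 + V * Matrix.diagonal (fun i => (d i : ℂ)) * star V =
      V * Matrix.diagonal (fun i => ((1 + d i : ℝ) : ℂ)) * star V := by
    have : Matrix.diagonal (fun i => ((1 + d i : ℝ) : ℂ)) =
        1 + Matrix.diagonal (fun i => (d i : ℂ)) := by
      rw [← Matrix.diagonal_one, Matrix.diagonal_add]
      congr 1
      ext i
      push_cast
      rfl
    rw [this, Matrix.mul_add, Matrix.add_mul, Matrix.mul_one, hVV']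
  rw [e1, Matrix.det_mul, Matrix.det_mul, Matrix.det_diagonal, mul_right_comm, ← Matrix.det_mul,
    hVV', Matrix.det_one, one_mul, Finset.prod_range]
  push_cast
  apply Finset.prod_congr rfl
  intro i _
  simp [ext]

/-- `diag ≤ μ` -/
theorem conj_diag_le {ι : Type} [Fintype ι] [DecidableEq ι] {V : Matrix ι ι ℂ}
    (hV : V ∈ Matrix.unitaryGroup ι ℂ) (d : ι → ℝ) (μ : ℝ) :
    V * Matrix.diagonal (fun i => (d i : ℂ)) * star V ≤ (μ : ℂ) • (1 : Matrix ι ι ℂ) ↔
      ∀ i, d i ≤ μ := by
  have hVV : star V * V = 1 := Matrix.mem_unitaryGroup_iff'.1 hV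
  have hVV' : V * star V = 1 := Matrix.mem_unitaryGroup_iff.1 hV
  have hdiag : Matrix.diagonal (fun i => ((μ - d i : ℝ) : ℂ)) =
      (μ : ℂ) • (1 : Matrix ι ι ℂ) - Matrix.diagonal (fun i => (d i : ℂ)) := by
    rw [← Matrix.diagonal_one, ← Matrix.diagonal_smul, Matrix.diagonal_sub]
    congr 1
    ext i
    simp
  have e2 : star V * ((μ : ℂ) • (1 : Matrix ι ι ℂ) -
      V * Matrix.diagonal (fun i => (d i : ℂ)) * star V) * V =
      Matrix.diagonal (fun i => ((μ - d i : ℝ) : ℂ)) := by
    rw [hdiag, Matrix.mul_sub, Matrix.sub_mul]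
    congr 1
    · rw [Matrix.mul_smul, Matrix.mul_one, Matrix.smul_mul, hVV]
    · calc star V * (V * Matrix.diagonal (fun i => (d i : ℂ)) * star V) * V
          = (star V * V) * Matrix.diagonal (fun i => (d i : ℂ)) * (star V * V) := by
            simp only [Matrix.mul_assoc]
        _ = _ := by rw [hVV, Matrix.one_mul, Matrix.mul_one]
  have e3 : V * Matrix.diagonal (fun i => ((μ - d i : ℝ) : ℂ)) * star V =
      (μ : ℂ) • (1 : Matrix ι ι ℂ) - V * Matrix.diagonal (fun i => (d i : ℂ)) * star V := by
    rw [hdiag, Matrix.mul_sub, Matrix.sub_mul, Matrix.mul_smul, Matrix.mul_one, Matrix.smul_mul,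
      hVV']
  rw [Matrix.le_iff]
  constructor
  · intro h i
    have h1 := h.conjTranspose_mul_mul_same V
    rw [← Matrix.star_eq_conjTranspose, e2, Matrix.posSemidef_diagonal_iff] at h1
    have h2 := h1 i
    rw [Complex.zero_le_real] at h2
    linarith
  · intro h
    rw [← e3]
    apply Matrix.PosSemidef.mul_mul_conjTranspose_same
    apply Matrix.PosSemidef.diagonal
    intro i
    simpa using h i

/-- If all compounds of `M` dominate those of `N` in the sense of the largest eigenvalue, then
`det (1 + N) ≤ det (1 + M)`. -/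
theorem det_le_of_cpd {M N : Matrix (Fin n) (Fin n) ℂ} (hM : M.PosSemidef) (hN : N.PosSemidef)
    (h : ∀ (k : ℕ) (μ : ℝ), 0 < μ → cpd k M ≤ (μ : ℂ) • (1 : Matrix (Ix n k) (Ix n k) ℂ) →
      cpd k N ≤ (μ : ℂ) • (1 : Matrix (Ix n k) (Ix n k) ℂ)) :
    ∃ x y : ℝ, (1 + N).det = x ∧ (1 + M).det = y ∧ x ≤ y := by
  obtain ⟨V, m, hV, hm, hma, rfl⟩ := exists_diag hM
  obtain ⟨W, ν, hW, hν, hνa, rfl⟩ := exists_diag hN
  refine ⟨_, _, det_one_add W hW ν, det_one_add V hV m, ?_⟩
  have hext : ∀ (d : Fin n → ℝ), (∀ i, 0 ≤ d i) → ∀ i, 0 ≤ ext d i := by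
    intro d hd i
    unfold ext
    split_ifs
    · exact hd _
    · exact le_rfl
  apply prod_le n (ext ν) (ext m) (hext ν hν) (hext m hm)
  · intro i j hij
    unfold ext
    split_ifs with h1 h2
    · exact hνa (by simpa [Fin.le_def] using hij)
    · omega
    · exact hν _
    · exact le_rfl
  · intro k hk
    rw [← lamP_J0 ν hk, ← lamP_J0 m hk]
    apply le_of_forall_pos_le_add
    intro ε hε
    have h0 : 0 ≤ lamP m (J0 n k hk) := lamP_nonneg hm _
    have h1 := h k (lamP m (J0 n k hk) + ε) (by linarith)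
    rw [cpd_conj, cpd_conj, conj_diag_le (cpd_unitary hV), conj_diag_le (cpd_unitary hW)] at h1
    exact h1 (fun J => by have := lamP_le hm hma hk J; linarith) _

end Pool.Agent.Q78.DI
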