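import Mathlib
import Pool.Agent.Q78.DI.Main

/-!
# `det (A² + |AB|^p) ≥ det (A² + A^p B^p)` for `0 ≤ p ≤ 2`

The proof is a log-majorization: for `A` positive definite and `s = p / 2` the eigenvalues of
`A^{-1} (B A² B)^s A^{-1}` log-majorize those of `A^{-(1-s)} B^{2s} A^{-(1-s)}`. By compound matrices
this is the implication `(B C B)^s ≤ C → B^{2s} ≤ C^{1-s}` with `C = A²`, which follows by iterating
the operator monotone map `C ↦ (B C B)^s`, whose fixed point is `B^{2s/(1-s)}`.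
-/

set_option autoImplicit false

open scoped MatrixOrder Matrix.Norms.L2Operator ComplexOrder NNReal
open Matrix Finset

namespace Pool.Agent.Q78.DI.WithdrawnDetInequality

open Pool.Agent.Q78.DI

variable {n : ℕ}

theorem nn {ι : Type} [Fintype ι] [DecidableEq ι] {A : Matrix ι ι ℂ} (hA : A.PosSemidef) : 0 ≤ A :=
  Matrix.nonneg_iff_posSemidef.2 hA

theorem mul_self_rpow {ι : Type} [Fintype ι] [DecidableEq ι] {A : Matrix ι ι ℂ} (hA : 0 ≤ A) {t : ℝ}
    (ht : 0 ≤ t) : (A * A) ^ t = A ^ t * A ^ t := by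
  have e1 : A * A = A ^ (2 : ℝ) := by
    rw [show (2 : ℝ) = 1 + 1 by norm_num, rpow_add_nonneg hA zero_le_one zero_le_one,
      CFC.rpow_one A]
  rw [e1, CFC.rpow_rpow_of_exponent_nonneg A _ _ (by norm_num) ht, two_mul,
    rpow_add_nonneg hA ht ht]

theorem strictlyPos_mul_self {ι : Type} [Fintype ι] [DecidableEq ι] {A : Matrix ι ι ℂ}
    (hA : A.PosDef) : IsStrictlyPositive (A * A) := by
  rw [Matrix.isStrictlyPositive_iff_posDef]
  have h1 : (A * A).PosSemidef := by
    have := Matrix.posSemidef_conjTranspose_mul_self A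
    rwa [hA.1.eq] at this
  rw [h1.posDef_iff_isUnit]
  exact hA.isUnit.mul hA.isUnit

theorem conj_le' {ι : Type} [Fintype ι] [DecidableEq ι] {X Y T : Matrix ι ι ℂ} (h : X ≤ Y)
    (hT : T.PosSemidef) : T * X * T ≤ T * Y * T :=
  conj_le h (nn hT)

theorem smul_conv {ι : Type} [Fintype ι] [DecidableEq ι] (m : ℝ≥0) (X : Matrix ι ι ℂ) :
    (((m : ℝ) : ℂ)) • X = m • X := by
  ext i j
  simp [NNReal.smul_def]

theorem posDef_case {A B : Matrix (Fin n) (Fin n) ℂ} (hA : A.PosDef) (hB : B.PosSemidef) {s : ℝ}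
    (hs : 0 ≤ s) (hs1 : s ≤ 1) :
    ∃ x y : ℝ, (A * A + A ^ (2 * s) * B ^ (2 * s)).det = x ∧
      (A * A + (B * (A * A) * B) ^ s).det = y ∧ x ≤ y := by
  have hAu : IsUnit A.det := (Matrix.isUnit_iff_isUnit_det A).1 hA.isUnit
  have hAn : 0 ≤ A := nn hA.posSemidef
  have h1s : 0 ≤ 1 - s := by linarith
  -- `D = A ^ (1 - s)`
  set D : Matrix (Fin n) (Fin n) ℂ := A ^ (1 - s) with hD
  have hDs : IsStrictlyPositive D :=
    (Matrix.isStrictlyPositive_iff_posDef.2 hA).rpow (y := 1 - s)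
  have hDp : D.PosDef := Matrix.isStrictlyPositive_iff_posDef.1 hDs
  have hDu : IsUnit D.det := (Matrix.isUnit_iff_isUnit_det D).1 hDp.isUnit
  have hDD : D * D = (A * A) ^ (1 - s) := (mul_self_rpow hAn h1s).symm
  have hADD : A ^ (2 * s) * (D * D) = A * A := by
    rw [hD, ← rpow_add_nonneg hAn h1s h1s, ← rpow_add_nonneg hAn (by positivity) (by positivity)]
    have : 2 * s + (1 - s + (1 - s)) = 1 + 1 := by ring
    rw [this, rpow_add_nonneg hAn zero_le_one zero_le_one, CFC.rpow_one A]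
  set X : Matrix (Fin n) (Fin n) ℂ := (B * (A * A) * B) ^ s with hX
  have hXn : X.PosSemidef := Matrix.nonneg_iff_posSemidef.1 (by rw [hX]; exact CFC.rpow_nonneg)
  have hBs : (B ^ (2 * s)).PosSemidef := Matrix.nonneg_iff_posSemidef.1 CFC.rpow_nonneg
  have hAi : A⁻¹.PosSemidef := hA.inv.posSemidef
  have hDi : D⁻¹.PosSemidef := hDp.inv.posSemidef
  set M : Matrix (Fin n) (Fin n) ℂ := A⁻¹ * X * A⁻¹ with hM
  set N : Matrix (Fin n) (Fin n) ℂ := D⁻¹ * B ^ (2 * s) * D⁻¹ with hN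
  have hMp : M.PosSemidef := by
    have := hXn.mul_mul_conjTranspose_same A⁻¹
    rwa [hAi.1.eq] at this
  have hNp : N.PosSemidef := by
    have := hBs.mul_mul_conjTranspose_same D⁻¹
    rwa [hDi.1.eq] at this
  have hBAB : (B * (A * A) * B).PosSemidef := by
    have h1 := (Matrix.posSemidef_conjTranspose_mul_self (A * B))
    have e1 : (A * B)ᴴ * (A * B) = B * (A * A) * B := by
      rw [Matrix.conjTranspose_mul, hA.1.eq, hB.1.eq]
      simp only [Matrix.mul_assoc]
    rwa [e1] at h1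
  -- the comparison of compounds
  have key : ∀ (k : ℕ) (μ : ℝ), 0 < μ → cpd k M ≤ (μ : ℂ) • (1 : Matrix (Ix n k) (Ix n k) ℂ) →
      cpd k N ≤ (μ : ℂ) • (1 : Matrix (Ix n k) (Ix n k) ℂ) := by
    intro k μ hμ h
    obtain ⟨m, rfl⟩ : ∃ m : ℝ≥0, (m : ℝ) = μ := ⟨⟨μ, hμ.le⟩, rfl⟩
    have hm : 0 < m := by exact_mod_cast hμ
    have ha : (cpd k A).PosDef := cpd_posDef hA
    have hb : (cpd k B).PosSemidef := cpd_posSemidef hB
    have e1 : cpd k X = (cpd k B * (cpd k A * cpd k A) * cpd k B) ^ s := by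
      rw [hX, cpd_rpow hBAB hs, cpd_mul, cpd_mul, cpd_mul]
    have h1 := conj_le' h ha.posSemidef
    have e2 : cpd k A * cpd k M * cpd k A = cpd k X := by
      rw [← cpd_mul, ← cpd_mul]
      congr 1
      rw [hM]
      calc A * (A⁻¹ * X * A⁻¹) * A = (A * A⁻¹) * X * (A⁻¹ * A) := by simp only [Matrix.mul_assoc]
        _ = X := by
          rw [Matrix.mul_nonsing_inv A hAu, Matrix.nonsing_inv_mul A hAu, Matrix.one_mul,
            Matrix.mul_one]
    rw [e2, e1, Matrix.mul_smul, Matrix.mul_one, Matrix.smul_mul] at h1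
    have h2 := main (b := cpd k B) (c := cpd k A * cpd k A) (nn hb)
      (strictlyPos_mul_self ha) hs hs1 (m := m) hm (by rwa [smul_conv] at h1)
    have h3 := conj_le' h2 (cpd_posSemidef (k := k) hDi)
    have e3 : (cpd k A * cpd k A) ^ (1 - s) = cpd k D * cpd k D := by
      rw [mul_self_rpow (nn ha.posSemidef) h1s, hD, cpd_rpow hA.posSemidef h1s]
    have e4 : cpd k D⁻¹ * cpd k B ^ (2 * s) * cpd k D⁻¹ = cpd k N := by
      rw [hN, cpd_mul, cpd_mul, cpd_rpow hB (by positivity)]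
    rw [e4, e3, ← smul_conv, Matrix.mul_smul, Matrix.smul_mul] at h3
    have e5 : cpd k D⁻¹ * (cpd k D * cpd k D) * cpd k D⁻¹ = 1 := by
      calc cpd k D⁻¹ * (cpd k D * cpd k D) * cpd k D⁻¹
          = (cpd k D⁻¹ * cpd k D) * (cpd k D * cpd k D⁻¹) := by simp only [Matrix.mul_assoc]
        _ = 1 := by rw [cpd_inv_mul hDu, cpd_mul_inv hDu, Matrix.one_mul]
    rwa [e5] at h3
  obtain ⟨x, y, hx, hy, hxy⟩ := det_le_of_cpd hMp hNp key
  -- back to the determinants
  have hdA : 0 < A.det := hA.det_pos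
  obtain ⟨r, hr, hrA⟩ : ∃ r : ℝ, 0 ≤ r ∧ A.det * A.det = (r : ℂ) := by
    rw [Complex.lt_def] at hdA
    have e0 : A.det = (A.det.re : ℂ) := Complex.ext rfl (by simpa using hdA.2.symm)
    refine ⟨A.det.re * A.det.re, mul_self_nonneg _, ?_⟩
    rw [Complex.ofReal_mul, ← e0]
  have d1 : (A * A + X).det = ((r * y : ℝ) : ℂ) := by
    have e1 : A * A + X = A * (1 + M) * A := by
      rw [Matrix.mul_add, Matrix.add_mul, Matrix.mul_one, hM]
      congr 1
      calc X = (A * A⁻¹) * X * (A⁻¹ * A) := by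
            rw [Matrix.mul_nonsing_inv A hAu, Matrix.nonsing_inv_mul A hAu, Matrix.one_mul,
              Matrix.mul_one]
        _ = _ := by simp only [Matrix.mul_assoc]
    rw [e1, Matrix.det_mul, Matrix.det_mul, hy, mul_right_comm, hrA]
    push_cast
    ring
  have d2 : (A * A + A ^ (2 * s) * B ^ (2 * s)).det = ((r * x : ℝ) : ℂ) := by
    have e1 : A * A + A ^ (2 * s) * B ^ (2 * s) = A ^ (2 * s) * (D * (1 + N) * D) := by
      rw [Matrix.mul_add, Matrix.add_mul, Matrix.mul_one, Matrix.mul_add, hADD, hN]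
      congr 2
      calc B ^ (2 * s) = (D * D⁻¹) * B ^ (2 * s) * (D⁻¹ * D) := by
            rw [Matrix.mul_nonsing_inv D hDu, Matrix.nonsing_inv_mul D hDu, Matrix.one_mul,
              Matrix.mul_one]
        _ = _ := by simp only [Matrix.mul_assoc]
    have e2 : (A ^ (2 * s)).det * (D.det * D.det) = (r : ℂ) := by
      rw [← Matrix.det_mul, ← Matrix.det_mul, hADD, Matrix.det_mul, hrA]
    rw [e1, Matrix.det_mul, Matrix.det_mul, Matrix.det_mul, hx]
    push_cast
    rw [← e2]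
    ring
  exact ⟨r * x, r * y, d2, d1, mul_le_mul_of_nonneg_left hxy hr⟩

/-- For all positive semidefinite complex `n × n` matrices `A`, `B` and all real `p` with
`0 ≤ p ≤ 2`, the determinants of `A² + A^p B^p` and of `A² + |AB|^p` are real, and the first is at
most the second. Here `X ^ p` (real `p`) is the power of a positive semidefinite matrix given by the
spectral calculus (`CFC.rpow`, with `X ^ 0 = 1`), and `|X| = (X* X)^{1/2}` is `CFC.abs X`. -/
theorem result (n : ℕ) (A B : Matrix (Fin n) (Fin n) ℂ) (hA : A.PosSemidef) (hB : B.PosSemidef)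
    (p : ℝ) (hp0 : 0 ≤ p) (hp2 : p ≤ 2) :
    ∃ x y : ℝ, (A ^ 2 + CFC.rpow A p * CFC.rpow B p).det = (x : ℂ) ∧
      (A ^ 2 + CFC.rpow (CFC.abs (A * B)) p).det = (y : ℂ) ∧ x ≤ y := by
  simp only [CFC.rpow_eq_pow]
  have hAn : 0 ≤ A := nn hA
  have hBAB : (B * (A * A) * B).PosSemidef := by
    have h1 := (Matrix.posSemidef_conjTranspose_mul_self (A * B))
    have e1 : (A * B)ᴴ * (A * B) = B * (A * A) * B := by
      rw [Matrix.conjTranspose_mul, hA.1.eq, hB.1.eq]
      simp only [Matrix.mul_assoc]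
    rwa [e1] at h1
  have habs : CFC.abs (A * B) ^ p = (B * (A * A) * B) ^ (p / 2) := by
    have e1 : star (A * B) * (A * B) = B * (A * A) * B := by
      rw [Matrix.star_eq_conjTranspose, Matrix.conjTranspose_mul, hA.1.eq, hB.1.eq]
      simp only [Matrix.mul_assoc]
    rw [CFC.abs, e1, CFC.sqrt_eq_rpow,
      CFC.rpow_rpow_of_exponent_nonneg _ _ _ (by norm_num) hp0 (nn hBAB)]
    congr 1
    ring
  rw [habs, pow_two]
  have hXn : ((B * (A * A) * B) ^ (p / 2)).PosSemidef :=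
    Matrix.nonneg_iff_posSemidef.1 CFC.rpow_nonneg
  have hAA : (A * A).PosSemidef := by
    have := Matrix.posSemidef_conjTranspose_mul_self A
    rwa [hA.1.eq] at this
  by_cases hdet : A.det = 0
  · -- the singular case
    have hy := (hAA.add hXn).det_nonneg
    rw [Complex.le_def] at hy
    have ey : (A * A + (B * (A * A) * B) ^ (p / 2)).det =
        (((A * A + (B * (A * A) * B) ^ (p / 2)).det.re : ℝ) : ℂ) :=
      Complex.ext rfl (by simpa using hy.2.symm)
    rcases hp0.eq_or_lt with rfl | hp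
    · refine ⟨_, _, ?_, ey, le_rfl⟩
      rw [← ey, zero_div, CFC.rpow_zero A, CFC.rpow_zero B (nn hB), mul_one,
        CFC.rpow_zero _ (nn hBAB)]
    · refine ⟨0, _, ?_, ey, hy.1⟩
      have e1 : A * A = A ^ p * A ^ (2 - p) := by
        rw [← rpow_add_nonneg hAn hp.le (by linarith), show p + (2 - p) = 1 + 1 by ring,
          rpow_add_nonneg hAn zero_le_one zero_le_one, CFC.rpow_one A]
      have e2 : A * A + A ^ p * B ^ p = A ^ p * (A ^ (2 - p) + B ^ p) := by
        rw [Matrix.mul_add, ← e1]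
      have e3 : (A ^ p).det = 0 := by
        by_contra hne
        have h1 : IsUnit (A ^ p) := (Matrix.isUnit_iff_isUnit_det _).2 (IsUnit.mk0 _ hne)
        rw [CFC.isUnit_rpow_iff A p hp.ne'] at h1
        exact ((Matrix.isUnit_iff_isUnit_det _).1 h1).ne_zero hdet
      rw [e2, Matrix.det_mul, e3, zero_mul]
      simp
  · have hAp : A.PosDef := by
      rw [hA.posDef_iff_isUnit]
      exact (Matrix.isUnit_iff_isUnit_det _).2 (IsUnit.mk0 _ hdet)
    have h := posDef_case hAp hB (s := p / 2) (by linarith) (by linarith)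
    rwa [show 2 * (p / 2) = p by ring] at h

end Pool.Agent.Q78.DI.WithdrawnDetInequality
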